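import Mathlib

/-! Swapping the factors of a matrix product which is `p ^ n` modulo `p ^ M`. -/

namespace Pool.H80.Cube

open Matrix

variable {O : Type*} [CommRing O] [IsDomain O] {ν : Type*} [Fintype ν] [DecidableEq ν]

theorem swapG {p : ℕ} (hp0 : (p : O) ≠ 0) (hmx : ∀ y : O, IsUnit (1 + (p : O) * y))
    {n M : ℕ} (hM : n < M) (A B R : Matrix ν ν O)
    (h : A * B = (p : O) ^ n • (1 : Matrix ν ν O) + (p : O) ^ M • R) :
    ∃ R' : Matrix ν ν O,
      B * A = (p : O) ^ n • (1 : Matrix ν ν O) + (p : O) ^ (M - n) • R' := by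
  set U : Matrix ν ν O := 1 + (p : O) ^ (M - n) • R with hU
  have hAB : A * B = (p : O) ^ n • U := by
    rw [h, hU, smul_add, smul_smul, ← pow_add, Nat.add_sub_cancel' hM.le]
  have hdet : IsUnit U.det := by
    have hex : ∃ y : O, U.det = 1 + (p : O) * y := by
      have hpd : (p : O) ∣ (p : O) ^ (M - n) := dvd_pow_self _ (by omega)
      obtain ⟨c, hc⟩ := hpd
      set I : Ideal O := Ideal.span {(p : O)}
      have : (Ideal.Quotient.mk I) U.det = 1 := by
        rw [RingHom.map_det]
        have : (Ideal.Quotient.mk I).mapMatrix U = 1 := by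
          ext i j
          rw [RingHom.mapMatrix_apply, Matrix.map_apply, hU, Matrix.add_apply, Matrix.smul_apply,
            smul_eq_mul, hc, map_add]
          have h0 : (Ideal.Quotient.mk I) ((p : O) * c * R i j) = 0 := by
            rw [Ideal.Quotient.eq_zero_iff_mem, Ideal.mem_span_singleton]
            exact ⟨c * R i j, by ring⟩
          rw [h0, add_zero, Matrix.one_apply, Matrix.one_apply]
          split <;> simp
        rw [this, det_one]
      have h1 : (Ideal.Quotient.mk I) (U.det - 1) = 0 := by rw [map_sub, this, map_one, sub_self]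
      rw [Ideal.Quotient.eq_zero_iff_mem, Ideal.mem_span_singleton] at h1
      obtain ⟨y, hy⟩ := h1
      exact ⟨y, by linear_combination hy⟩
    obtain ⟨y, hy⟩ := hex
    rw [hy]
    exact hmx y
  have h1 : A * (B * U⁻¹) = (p : O) ^ n • 1 := by
    rw [← Matrix.mul_assoc, hAB, Matrix.smul_mul, Matrix.mul_nonsing_inv _ hdet]
  have h2 : (B * U⁻¹) * A = (p : O) ^ n • 1 := by
    set K := FractionRing O
    set ι : O →+* K := algebraMap O K
    have hι : Function.Injective ι := IsFractionRing.injective O K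
    have hpK : (ι (p : O)) ^ n ≠ 0 := pow_ne_zero _ (by
      rw [Ne, map_eq_zero_iff _ hι]; exact hp0)
    apply Matrix.map_injective hι
    have e1 : A.map ι * (B * U⁻¹).map ι = (ι (p : O)) ^ n • 1 := by
      rw [← Matrix.map_mul, h1]
      ext i j
      simp only [Matrix.map_apply, Matrix.smul_apply, Matrix.one_apply, smul_eq_mul, map_mul,
        map_pow]
      split_ifs <;> simp
    have e2 : A.map ι * (((ι (p : O)) ^ n)⁻¹ • (B * U⁻¹).map ι) = 1 := by
      rw [Matrix.mul_smul, e1, smul_smul, inv_mul_cancel₀ hpK, one_smul]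
    have e3 := mul_eq_one_comm.mp e2
    rw [Matrix.smul_mul] at e3
    have e4 : (B * U⁻¹).map ι * A.map ι = (ι (p : O)) ^ n • 1 := by
      rw [← e3, smul_smul, mul_inv_cancel₀ hpK, one_smul]
    change ((B * U⁻¹) * A).map ι = ((p : O) ^ n • (1 : Matrix ν ν O)).map ι
    rw [Matrix.map_mul, e4]
    ext i j
    simp only [Matrix.map_apply, Matrix.smul_apply, Matrix.one_apply, smul_eq_mul, map_mul,
      map_pow]
    split_ifs <;> simp
  refine ⟨B * U⁻¹ * R * A, ?_⟩
  have hUi : U⁻¹ * U = 1 := Matrix.nonsing_inv_mul _ hdet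
  have hU2 : U⁻¹ * U = U⁻¹ * (1 + (p : O) ^ (M - n) • R) := by rw [← hU]
  calc B * A = B * (U⁻¹ * U) * A := by rw [hUi, Matrix.mul_one]
    _ = (B * U⁻¹) * A + (p : O) ^ (M - n) • (B * U⁻¹ * R * A) := by
        rw [hU2]
        simp only [Matrix.mul_add, Matrix.add_mul, Matrix.mul_one, Matrix.mul_smul,
          Matrix.smul_mul, Matrix.mul_assoc]
    _ = _ := by rw [h2]

end Pool.H80.Cube
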