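import Pool.Agent.H93.CUBE.LStmts
import Pool.Agent.H80.CUBE.SwapG

namespace Pool.H93.Cube

open Matrix Pool.CM

theorem SW_thm : SWStmt := by
  intro E _ O p h m _ _ n M X Y hX hY hnM hXY
  have hp0 : (p : O) ≠ 0 := by
    intro h0
    apply h.p_ne
    have := congrArg Subtype.val h0
    simpa using this
  have hmx : ∀ y : O, IsUnit (1 + (p : O) * y) := by
    intro y
    have h1 : (((1 + (p : O) * y : O)) : E) ∉ pI O p 1 := by
      rintro ⟨b, hb, e⟩
      push_cast at e
      refine h.p_not_unit (O.sub_mem hb y.2) ?_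
      rw [pow_one] at e
      linear_combination (-1 : E) * e
    obtain ⟨h2, h3⟩ := h.unit_of_not_mem (1 + (p : O) * y : O).2 h1
    refine IsUnit.of_mul_eq_one ⟨_, h2⟩ ?_
    apply Subtype.ext
    push_cast
    push_cast at h3
    exact mul_inv_cancel₀ h3
  obtain ⟨A, hA⟩ : ∃ A : Matrix m m O, ∀ a b, ((A a b : O) : E) = X a b :=
    ⟨fun a b => ⟨X a b, hX a b⟩, fun _ _ => rfl⟩
  obtain ⟨B, hB⟩ : ∃ B : Matrix m m O, ∀ a b, ((B a b : O) : E) = Y a b :=
    ⟨fun a b => ⟨Y a b, hY a b⟩, fun _ _ => rfl⟩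
  choose R hR hRe using hXY
  obtain ⟨R', hR'⟩ : ∃ R' : Matrix m m O, ∀ a b, ((R' a b : O) : E) = R a b :=
    ⟨Matrix.of fun a b => ⟨R a b, hR a b⟩, fun _ _ => rfl⟩
  have hAB : A * B = (p : O) ^ n • (1 : Matrix m m O) + (p : O) ^ M • R' := by
    ext a b
    have h1 := hRe a b
    rw [Matrix.mul_apply, Matrix.smul_apply, Matrix.one_apply] at h1
    have h2 : ((∑ j, A a j * B j b : O) : E) = ∑ j, X a j * Y j b := by
      push_cast
      simp only [hA, hB]
    have h3 : (((p : O) ^ n * (if a = b then 1 else 0) : O) : E) =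
        (p : E) ^ n * (if a = b then 1 else 0) := by
      split_ifs <;> simp
    have h4 : (((p : O) ^ M * R' a b : O) : E) = (p : E) ^ M * R a b := by
      push_cast
      rw [hR']
    rw [Matrix.mul_apply, Matrix.add_apply, Matrix.smul_apply, Matrix.smul_apply,
      Matrix.one_apply, smul_eq_mul, smul_eq_mul]
    rw [smul_eq_mul] at h1
    change ((∑ j, A a j * B j b : O) : E) =
      (((p : O) ^ n * (if a = b then 1 else 0) : O) : E) + (((p : O) ^ M * R' a b : O) : E)
    rw [h2, h3, h4]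
    linear_combination h1
  obtain ⟨S, hS⟩ := Pool.H80.Cube.swapG hp0 hmx hnM A B R' hAB
  intro a b
  refine ⟨(S a b : E), (S a b).2, ?_⟩
  have h1 := congrArg (Subtype.val : O → E) (congrFun (congrFun hS a) b)
  rw [Matrix.mul_apply, Matrix.add_apply, Matrix.smul_apply, Matrix.smul_apply,
    Matrix.one_apply, smul_eq_mul, smul_eq_mul] at h1
  have h2 : ((∑ j, B a j * A j b : O) : E) = ∑ j, Y a j * X j b := by
    push_cast
    simp only [hA, hB]
  have h3 : (((p : O) ^ n * (if a = b then 1 else 0) : O) : E) =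
      (p : E) ^ n * (if a = b then 1 else 0) := by
    split_ifs <;> simp
  have h4 : (((p : O) ^ (M - n) * S a b : O) : E) = (p : E) ^ (M - n) * (S a b : E) := by
    push_cast
    rfl
  change ((∑ j, B a j * A j b : O) : E) =
    (((p : O) ^ n * (if a = b then 1 else 0) : O) : E) + (((p : O) ^ (M - n) * S a b : O) : E)
    at h1
  rw [h2, h3, h4] at h1
  rw [Matrix.mul_apply, Matrix.smul_apply, Matrix.one_apply, smul_eq_mul]
  linear_combination h1

end Pool.H93.Cube
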