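import Pool.Agent.H80.CUBE.Lim0

/-! The product of a Frobenius matrix with the Frobenius twist of a horizontal matrix. -/

namespace Pool.H80.Cube

open Pool.CM Pool.H93.Cube Matrix

section hor
variable {E : Type} [Field E] {m n u : Type} [Fintype m] [Fintype n] [Fintype u]

omit [Fintype m] [Fintype u] in
theorem map_nab_mul (A : Matrix m n (LaurentSeries E)) (B : Matrix n u (LaurentSeries E)) :
    (A * B).map nab = A.map nab * B + A * B.map nab := by
  ext1 a b
  simp only [Matrix.map_apply, Matrix.mul_apply, Matrix.add_apply, map_sum, nab_mul,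
    Finset.sum_add_distrib]

omit [Fintype m] [Fintype n] in
theorem map_phiL_mul (φ : E →+* E) (p : ℕ) (hp : p ≠ 0) (A : Matrix m u (LaurentSeries E))
    (B : Matrix u n (LaurentSeries E)) :
    (A * B).map (phiL φ p hp) = A.map (phiL φ p hp) * B.map (phiL φ p hp) :=
  Matrix.map_mul

omit [Fintype m] [Fintype u] in
theorem map_nab_phiL (φ : E →+* E) (p : ℕ) (hp : p ≠ 0) (Y : Matrix m u (LaurentSeries E)) :
    (Y.map (phiL φ p hp)).map nab =
      (HahnSeries.C (p : E) : LaurentSeries E) • (Y.map nab).map (phiL φ p hp) := by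
  ext1 a b
  simp only [Matrix.map_apply, Matrix.smul_apply, nab_phiL, smul_eq_mul]

omit [Fintype m] [Fintype u] in
theorem cM_map_phiL (φ : E →+* E) (p : ℕ) (hp : p ≠ 0) (B : Matrix m u E) :
    (cM B).map (phiL φ p hp) = cM (B.map φ) := by
  ext1 a b
  simp only [Matrix.map_apply, phiL_C]

/-- The connection on `Φ φ(Y)`. -/
theorem hor_mul (φ : E →+* E) (p : ℕ) (hp : p ≠ 0) (G Phi : Matrix m m (LaurentSeries E))
    (Y : Matrix m u (LaurentSeries E)) (B : Matrix u u E) :
    (Phi * Y.map (phiL φ p hp)).map nab + G * (Phi * Y.map (phiL φ p hp)) -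
        (Phi * Y.map (phiL φ p hp)) * cM ((p : E) • B.map φ) =
      (Phi.map nab + G * Phi - (HahnSeries.C (p : E) : LaurentSeries E) •
        (Phi * G.map (phiL φ p hp))) * Y.map (phiL φ p hp) +
      (HahnSeries.C (p : E) : LaurentSeries E) •
        (Phi * (Y.map nab + G * Y - Y * cM B).map (phiL φ p hp)) := by
  have e1 : (Y.map nab + G * Y - Y * cM B).map (phiL φ p hp) =
      (Y.map nab).map (phiL φ p hp) + G.map (phiL φ p hp) * Y.map (phiL φ p hp) -
        Y.map (phiL φ p hp) * cM (B.map φ) := by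
    rw [← map_phiL_mul, ← cM_map_phiL φ p hp, ← map_phiL_mul]
    ext1 a b
    simp only [Matrix.map_apply, Matrix.add_apply, Matrix.sub_apply, map_add, map_sub]
  have e2 : cM ((p : E) • B.map φ) = (HahnSeries.C (p : E) : LaurentSeries E) • cM (B.map φ) := by
    ext1 a b
    simp only [Matrix.map_apply, Matrix.smul_apply, smul_eq_mul, map_mul]
  rw [map_nab_mul, map_nab_phiL, e1, e2]
  simp only [Matrix.mul_smul, Matrix.mul_add, Matrix.mul_sub, Matrix.add_mul, Matrix.sub_mul,
    Matrix.smul_mul, smul_add, smul_sub, Matrix.mul_assoc]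
  abel

end hor

section place
variable {E : Type} [Field E] {O : Subring E} {p : ℕ} {m u w : Type} [Fintype m] [DecidableEq m]
  [Fintype u] [DecidableEq u] [Fintype w] [DecidableEq w]

omit [DecidableEq m] [DecidableEq u] in
/-- `Φ φ(Y)` is horizontal modulo `p ^ M` in orders `< K`. -/
theorem hor_low (hp : p ≠ 0) (φ : E →+* E) (hφ : ∀ x ∈ O, φ x ∈ O)
    {G : Matrix m m (LaurentSeries E)} {M P : ℕ} {K : ℤ} {Phi : Matrix m m (LaurentSeries E)}
    (hPP : ∀ a b, ∀ k < -(P : ℤ), (Phi a b).coeff k = 0)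
    (hor : CongL O p M (Phi.map nab + G * Phi)
      ((HahnSeries.C (p : E) : LaurentSeries E) • (Phi * G.map (phiL φ p hp))))
    {Y : Matrix m u (LaurentSeries E)} (hYi : MInt O Y) {B : Matrix u u E}
    (hY : ∀ a b, ∀ k < K, ((Y.map nab + G * Y - Y * cM B) a b).coeff k = 0)
    (hPK : (P : ℤ) + K ≤ p * K) :
    ∀ a b, ∀ k < K, (((Phi * Y.map (phiL φ p hp)).map nab + G * (Phi * Y.map (phiL φ p hp)) -
        (Phi * Y.map (phiL φ p hp)) * cM ((p : E) • B.map φ)) a b).coeff k ∈ pI O p M := by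
  intro a b k hk
  rw [hor_mul, Matrix.add_apply, HahnSeries.coeff_add]
  refine add_mem ?_ ?_
  · rw [Matrix.mul_apply, HahnSeries.coeff_sum]
    refine sum_mem fun c _ => ?_
    exact pL_mul_right (hor a c) (phiL_mem_IL hφ p hp (hYi c b)) k
  · have : (((HahnSeries.C (p : E) : LaurentSeries E) •
        (Phi * (Y.map nab + G * Y - Y * cM B).map (phiL φ p hp))) a b).coeff k = 0 := by
      rw [Matrix.smul_apply, smul_eq_mul, HahnSeries.C_mul_eq_smul, HahnSeries.coeff_smul,
        Matrix.mul_apply, HahnSeries.coeff_sum, Finset.sum_eq_zero, smul_zero]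
      intro c _
      exact mul_zero_low (hPP a c) (phiL_low (φ := φ) (hp := hp) (hY c b)) k (by omega)
    rw [this]
    exact zero_mem _

omit [DecidableEq m] in
/-- `Φ φ(Y)` is regular modulo `p ^ M`. -/
theorem reg_place (hO : Dvr O p) (hp : p ≠ 0) (φ : E →+* E) (hφ : ∀ x ∈ O, φ x ∈ O)
    {G : Matrix m m (LaurentSeries E)} (hG : MReg G) (hGi : MInt O G) {M c q P : ℕ} {K : ℤ}
    (hR : ROK O p G q c P) {Phi : Matrix m m (LaurentSeries E)}
    (hPP : ∀ a b, ∀ k < -(P : ℤ), (Phi a b).coeff k = 0)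
    (hor : CongL O p (c + M) (Phi.map nab + G * Phi)
      ((HahnSeries.C (p : E) : LaurentSeries E) • (Phi * G.map (phiL φ p hp))))
    {Y : Matrix m u (LaurentSeries E)} (hYr : MReg Y) (hYi : MInt O Y) {B : Matrix u u E}
    (hB : ∀ a b, B a b ∈ O) (hBq : B ^ q = 0)
    (hY : ∀ a b, ∀ k < K, ((Y.map nab + G * Y - Y * cM B) a b).coeff k = 0)
    (hPK : (P : ℤ) + K ≤ p * K) (hK : 0 ≤ K) :
    ∀ a b, ∀ k < 0, ((Phi * Y.map (phiL φ p hp)) a b).coeff k ∈ pI O p M := by
  refine reg_cols hO hG hGi hR _ ((p : E) • B.map φ) ?_ ?_ ?_ ?_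
  · intro a b
    exact O.mul_mem (natCast_mem O p) (hφ _ (hB a b))
  · have e : (B.map φ) ^ q = 0 := by
      rw [← Matrix.map_pow B φ q, hBq]
      ext i j
      simp
    rw [smul_pow, e, smul_zero]
  · intro a b k hk
    rw [Matrix.mul_apply, HahnSeries.coeff_sum]
    refine Finset.sum_eq_zero fun c _ => ?_
    have h0 : ∀ k < (0 : ℤ), ((Y.map (phiL φ p hp)) c b).coeff k = 0 := by
      intro k hk
      exact phiL_low (φ := φ) (hp := hp) (hYr c b) k (by simpa using hk)
    exact mul_zero_low (hPP a c) h0 k (by omega)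
  · intro a b k hk
    exact hor_low hp φ hφ hPP hor hYi hY hPK a b k (lt_of_lt_of_le hk hK)

theorem coeff_mul_cM {E : Type} [Field E] {x : LaurentSeries E} {c : E} (k : ℤ) :
    (x * HahnSeries.C c).coeff k = x.coeff k * c := by
  rw [mul_comm, HahnSeries.C_mul_eq_smul, HahnSeries.coeff_smul, smul_eq_mul, mul_comm]

omit [Fintype m] [DecidableEq m] [DecidableEq u] [Fintype w] [DecidableEq w] in
theorem coeff_mul_cM' (T : Matrix m u (LaurentSeries E)) (B : Matrix u w E) (a : m) (b : w)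
    (k : ℤ) : ((T * cM B) a b).coeff k = ∑ c, (T a c).coeff k * B c b := by
  rw [Matrix.mul_apply, HahnSeries.coeff_sum]
  exact Finset.sum_congr rfl fun c _ => coeff_mul_cM k

omit [DecidableEq m] [DecidableEq u] in
/-- order 0 of a horizontal matrix which is regular modulo `p ^ M` -/
theorem order_zero {G : Matrix m m (LaurentSeries E)} (hG : MReg G) (hGi : MInt O G) {M : ℕ}
    {K : ℤ} (hK : 0 < K) (T : Matrix m u (LaurentSeries E)) (B' : Matrix u u E)
    (hT : ∀ a b, ∀ k < 0, (T a b).coeff k ∈ pI O p M)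
    (h : ∀ a b, ∀ k < K, ((T.map nab + G * T - T * cM B') a b).coeff k ∈ pI O p M) :
    ∀ a b, (cz G * cz T - cz T * B') a b ∈ pI O p M := by
  intro a b
  have e := h a b 0 hK
  rw [Matrix.sub_apply, Matrix.add_apply, Matrix.map_apply, HahnSeries.coeff_sub,
    HahnSeries.coeff_add, nab_coeff, Matrix.mul_apply, HahnSeries.coeff_sum, coeff_mul_cM'] at e
  have e2 : ∑ c, (G a c * T c b).coeff 0 - ∑ c, (G a c).coeff 0 * (T c b).coeff 0 ∈ pI O p M := by
    rw [← Finset.sum_sub_distrib]
    exact sum_mem fun c _ => mul_low_at (hG a c) (hGi a c) (hT c b)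
  have e4 := sub_mem e e2
  rw [Matrix.sub_apply, Matrix.mul_apply, Matrix.mul_apply]
  convert e4 using 1
  simp only [cz, Int.cast_zero, zero_mul, zero_add]
  ring

end place

section block
variable {E : Type} [Field E] {O : Subring E} {p : ℕ} {u w : Type}
  [Fintype u] [DecidableEq u] [Fintype w] [DecidableEq w]

/-- In normal form, a horizontal matrix `T` which is regular modulo `p ^ M` is congruent to
`Y Φ_H`, where `Φ_H` is the upper block of its constant term. -/
theorem block_place {G : Matrix (u ⊕ w) (u ⊕ w) (LaurentSeries E)} {Bu : Matrix u u E}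
    {Bn : Matrix w w E} (hNF : NF G Bu Bn) (hGi : MInt O G) {M q : ℕ} {K : ℤ} (hK : 0 < K)
    (T : Matrix (u ⊕ w) u (LaurentSeries E)) (hTi : ∀ a b, T a b ∈ IL O)
    (B' : Matrix u u E) (hB : ∀ a b, B' a b ∈ O) (hBq : B' ^ q = 0)
    (hT : ∀ a b, ∀ k < 0, (T a b).coeff k ∈ pI O p M)
    (h : ∀ a b, ∀ k < K, ((T.map nab + G * T - T * cM B') a b).coeff k ∈ pI O p M)
    (Rn : Matrix w w E) (hRn : ∀ a b, Rn a b ∈ O) (hRB : Rn * Bn = 1)
    (hinv : ∀ i : ℤ, 1 ≤ i → i < K → ∃ R : Matrix (u ⊕ w) (u ⊕ w) E, (∀ a b, R a b ∈ O) ∧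
      R * ((i : E) • (1 : Matrix (u ⊕ w) (u ⊕ w) E) + cz G) = 1)
    {Y : Matrix (u ⊕ w) u (LaurentSeries E)} (hYr : MReg Y) (hYi : MInt O Y)
    (hY0 : cz Y = fromRows 1 0)
    (hY : ∀ a b, ∀ k < K, ((Y.map nab + G * Y - Y * cM Bu) a b).coeff k = 0)
    (PhiH : Matrix u u E) (hPH : ∀ a b, PhiH a b - (T (Sum.inl a) b).coeff 0 ∈ pI O p M) :
    (∀ a b, (Bu * PhiH - PhiH * B') a b ∈ pI O p M) ∧
    (∀ a b, ∀ k < K, ((T - Y * cM PhiH) a b).coeff k ∈ pI O p M) := by
  have h0 := order_zero hNF.reg hGi hK T B' hT h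
  have hBui : ∀ a b, Bu a b ∈ O := by
    intro a b
    have := congrFun (congrFun hNF.c0 (Sum.inl a)) (Sum.inl b)
    rw [fromBlocks_apply₁₁] at this
    rw [← this]
    exact hGi _ _ 0
  -- upper block
  obtain ⟨x, hx⟩ : ∃ x : Matrix u u E, ∀ a b, x a b = (T (Sum.inl a) b).coeff 0 :=
    ⟨fun a b => (T (Sum.inl a) b).coeff 0, fun _ _ => rfl⟩
  have hup : ∀ a b, (Bu * x - x * B') a b ∈ pI O p M := by
    intro a b
    have := h0 (Sum.inl a) b
    rw [Matrix.sub_apply, Matrix.mul_apply, Matrix.mul_apply, hNF.c0, Fintype.sum_sum_type] at this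
    simp only [fromBlocks_apply₁₁, fromBlocks_apply₁₂, Matrix.zero_apply, zero_mul,
      Finset.sum_const_zero, add_zero] at this
    rw [Matrix.sub_apply, Matrix.mul_apply, Matrix.mul_apply]
    simp only [hx]
    exact this
  have hlow : ∀ a b, (T (Sum.inr a) b).coeff 0 ∈ pI O p M := by
    obtain ⟨x, hx⟩ : ∃ x : Matrix w u E, ∀ a b, x a b = (T (Sum.inr a) b).coeff 0 :=
      ⟨fun a b => (T (Sum.inr a) b).coeff 0, fun _ _ => rfl⟩
    intro a b
    rw [← hx]
    refine kill Rn Bn hRB hRn B' hB hBq x ?_ a b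
    intro a b
    have := h0 (Sum.inr a) b
    rw [Matrix.sub_apply, Matrix.mul_apply, Matrix.mul_apply, hNF.c0, Fintype.sum_sum_type] at this
    simp only [fromBlocks_apply₂₁, fromBlocks_apply₂₂, Matrix.zero_apply, zero_mul,
      Finset.sum_const_zero, zero_add] at this
    rw [Matrix.sub_apply, Matrix.mul_apply, Matrix.mul_apply]
    simp only [hx]
    exact this
  have hcomm : ∀ a b, (Bu * PhiH - PhiH * B') a b ∈ pI O p M := by
    intro a b
    have h1 : (Bu * (PhiH - x)) a b ∈ pI O p M := by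
      rw [Matrix.mul_apply]
      refine sum_mem fun c _ => pI_mul_left (hBui a c) ?_
      rw [Matrix.sub_apply, hx]
      exact hPH c b
    have h2 : ((PhiH - x) * B') a b ∈ pI O p M := by
      rw [Matrix.mul_apply]
      refine sum_mem fun c _ => pI_mul_right ?_ (hB c b)
      rw [Matrix.sub_apply, hx]
      exact hPH a c
    have h3 := hup a b
    have h4 := add_mem (sub_mem h1 h2) h3
    rw [← Matrix.sub_apply, ← Matrix.add_apply] at h4
    have h5 : Bu * PhiH - PhiH * B' = Bu * (PhiH - x) - (PhiH - x) * B' + (Bu * x - x * B') := by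
      rw [Matrix.mul_sub, Matrix.sub_mul]
      abel
    rw [h5]
    exact h4
  refine ⟨hcomm, ?_⟩
  have hPHi : ∀ a b, PhiH a b ∈ O := by
    intro a b
    have := O.add_mem (pI_sub_O (hPH a b)) (hTi (Sum.inl a) b 0)
    rwa [sub_add_cancel] at this
  refine kill_orders (q := q) hNF.reg hGi B' hB hBq (T - Y * cM PhiH) hinv ?_ ?_
  · intro a b k hk
    have e : (T - Y * cM PhiH).map nab + G * (T - Y * cM PhiH) - (T - Y * cM PhiH) * cM B' =
        (T.map nab + G * T - T * cM B') - (Y.map nab + G * Y - Y * cM Bu) * cM PhiH -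
          Y * cM (Bu * PhiH - PhiH * B') := by
      have e1 : (T - Y * cM PhiH).map nab = T.map nab - (Y * cM PhiH).map nab := by
        ext1 a b
        simp only [Matrix.map_apply, Matrix.sub_apply, map_sub]
      have e2 : (cM PhiH).map nab = 0 := by
        ext1 a b
        simp only [Matrix.map_apply, nab_C, Matrix.zero_apply]
      have e3 : cM (Bu * PhiH - PhiH * B') = cM Bu * cM PhiH - cM PhiH * cM B' := by
        ext1 a b
        simp only [Matrix.map_apply, Matrix.sub_apply, Matrix.mul_apply, map_sub, map_sum, map_mul]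
      rw [e1, map_nab_mul, e2, e3]
      simp only [Matrix.mul_sub, Matrix.sub_mul, Matrix.add_mul, Matrix.mul_zero, add_zero,
        Matrix.mul_assoc]
      abel
    rw [e, Matrix.sub_apply, Matrix.sub_apply, HahnSeries.coeff_sub, HahnSeries.coeff_sub]
    refine sub_mem (sub_mem (h a b k hk) ?_) ?_
    · rw [coeff_mul_cM']
      refine sum_mem fun c _ => ?_
      rw [hY a c k hk, zero_mul]
      exact zero_mem _
    · rw [coeff_mul_cM']
      exact sum_mem fun c _ => pI_mul_left (hYi a c k) (hcomm c b)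
  · intro a b k hk
    rw [Matrix.sub_apply, HahnSeries.coeff_sub, coeff_mul_cM']
    rcases lt_or_eq_of_le (Int.lt_add_one_iff.1 hk : k ≤ 0) with hk' | hk'
    · refine sub_mem (hT a b k hk') (sum_mem fun c _ => ?_)
      rw [hYr a c k hk', zero_mul]
      exact zero_mem _
    · subst hk'
      have hYc : ∀ c, (Y a c).coeff 0 = (fromRows 1 0 : Matrix (u ⊕ w) u E) a c := by
        intro c
        exact congrFun (congrFun hY0 a) c
      rcases a with a | a
      · have : ∑ c, (Y (Sum.inl a) c).coeff 0 * PhiH c b = PhiH a b := by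
          simp only [hYc, fromRows_apply_inl, Matrix.one_apply, ite_mul, one_mul, zero_mul]
          simp
        rw [this]
        have := neg_mem (hPH a b)
        rwa [neg_sub] at this
      · have : ∑ c, (Y (Sum.inr a) c).coeff 0 * PhiH c b = 0 := by
          simp only [hYc, fromRows_apply_inr, Matrix.zero_apply, zero_mul, Finset.sum_const_zero]
        rw [this, sub_zero]
        exact hlow a b

end block

end Pool.H80.Cube
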