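import Pool.Agent.H93.CUBE.LStmts
import Pool.Agent.H80.CUBE.Lim1

namespace Pool.H93.Cube

open Matrix Pool.CM

namespace TR1

variable {E : Type} [Field E]

theorem nil_card {u : Type} [Fintype u] [DecidableEq u] (B : Matrix u u E) (h : IsNilpotent B) :
    B ^ Fintype.card u = 0 := by
  have h1 : IsNilpotent (Matrix.toLinAlgEquiv' B) := h.map Matrix.toLinAlgEquiv'
  have h2 := IsNilpotent.charpoly_eq_X_pow_finrank h1
  have h3 : (Matrix.toLinAlgEquiv' B).charpoly = B.charpoly := by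
    have := LinearMap.charpoly_toMatrix (Matrix.toLinAlgEquiv' B) (Pi.basisFun E u)
    rw [← this]
    congr 1
    exact LinearMap.toMatrix'_toLin' B
  rw [h3, Module.finrank_fintype_fun_eq_card] at h2
  have h4 := Matrix.aeval_self_charpoly B
  rw [h2] at h4
  simpa using h4

theorem natCast_ne {O : Subring E} {p : ℕ} (h : Dvr O p) {k : ℕ} (hk : k ≠ 0) : (k : E) ≠ 0 := by
  induction k using Nat.strong_induction_on with
  | _ k ih =>
    by_cases hd : p ∣ k
    · obtain ⟨l, rfl⟩ := hd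
      have hl : l ≠ 0 := by
        rintro rfl
        simp at hk
      have hlt : l < p * l := by
        have := h.prime.two_le
        nlinarith [Nat.pos_of_ne_zero hl]
      push_cast
      exact mul_ne_zero h.p_ne (ih l hlt hl)
    · have := (h.int_unit (z := (k : ℤ)) (by exact_mod_cast hd)).2
      exact_mod_cast this

/-- inverse matrix over the valuation ring -/
theorem inv_int {O : Subring E} {m : Type} [Fintype m] [DecidableEq m] (T : Matrix m m E)
    (hT : ∀ a b, T a b ∈ O) (h0 : T.det ≠ 0) (hd : T.det⁻¹ ∈ O) :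
    ∃ R : Matrix m m E, (∀ a b, R a b ∈ O) ∧ R * T = 1 := by
  refine ⟨T.det⁻¹ • T.adjugate, fun a b => ?_, ?_⟩
  · rw [Matrix.smul_apply, smul_eq_mul]
    refine O.mul_mem hd ?_
    obtain ⟨S, hS⟩ : ∃ S : Matrix m m O, S.map O.subtype = T :=
      ⟨Matrix.of fun a b => ⟨T a b, hT a b⟩, by ext a b; rfl⟩
    have h1 : T.adjugate = S.adjugate.map O.subtype := by
      rw [← hS]
      exact (RingHom.map_adjugate O.subtype S).symm
    rw [h1]
    exact (S.adjugate a b).2
  · rw [Matrix.smul_mul, Matrix.adjugate_mul, smul_smul, inv_mul_cancel₀ h0, one_smul]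

end TR1

theorem TR1_thm : TR1Stmt := by
  intro E _ O p h φ hφ u w _ _ _ _ G Bu Bn hNF hGi hBn K hK hinv Y hYr hYi hY0 hY Phi M c C1
    hPhi hPP hPK hor hROK
  have hp := h.prime.ne_zero
  have hc0 : ∀ a b, cz G a b ∈ O := fun a b => hGi a b 0
  have hBui : ∀ a b, Bu a b ∈ O := by
    intro a b
    have := congrFun (congrFun hNF.c0 (Sum.inl a)) (Sum.inl b)
    rw [fromBlocks_apply₁₁] at this
    rw [← this]
    exact hc0 _ _
  have hBni : ∀ a b, Bn a b ∈ O := by
    intro a b
    have := congrFun (congrFun hNF.c0 (Sum.inr a)) (Sum.inr b)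
    rw [fromBlocks_apply₂₂] at this
    rw [← this]
    exact hc0 _ _
  have hBq : Bu ^ Fintype.card (u ⊕ w) = 0 := by
    have h1 := TR1.nil_card Bu hNF.nil
    rw [Fintype.card_sum, pow_add, h1, zero_mul]
  have hdet0 : Bn.det ≠ 0 := by
    have := hNF.inv 0
    simpa using this
  obtain ⟨Rn, hRn, hRB⟩ := TR1.inv_int Bn hBni hdet0 hBn
  have hPPn : ∀ a b, ∀ k < -((p * C1 : ℕ) : ℤ), (Phi a b).coeff k = 0 := hPP
  have hPK' : ((p * C1 : ℕ) : ℤ) + (K : ℤ) ≤ p * (K : ℤ) := by
    have : ((K + p * C1 : ℕ) : ℤ) ≤ ((p * K : ℕ) : ℤ) := by exact_mod_cast hPK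
    push_cast at this
    push_cast
    linarith
  have hor' : CongL O p (c + M) (Phi.map nab + G * Phi)
      ((HahnSeries.C (p : E) : LaurentSeries E) • (Phi * G.map (phiL φ p hp))) := by
    rw [add_comm c M]
    exact hor
  have horM : CongL O p M (Phi.map nab + G * Phi)
      ((HahnSeries.C (p : E) : LaurentSeries E) • (Phi * G.map (phiL φ p hp))) :=
    fun a b => pL_le (Nat.le_add_right M c) (hor a b)
  have hreg := Pool.H80.Cube.reg_place h hp φ hφ hNF.reg hGi hROK hPPn hor' hYr hYi hBui hBq hY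
    hPK' (by exact_mod_cast hK.le)
  have hlow := Pool.H80.Cube.hor_low hp φ hφ hPPn horM hYi hY hPK'
  have hB' : ∀ a b, ((p : E) • Bu.map φ) a b ∈ O := fun a b =>
    O.mul_mem (natCast_mem O p) (hφ _ (hBui a b))
  have hB'q : ((p : E) • Bu.map φ) ^ Fintype.card (u ⊕ w) = 0 := by
    have e : (Bu.map φ) ^ Fintype.card (u ⊕ w) = 0 := by
      rw [← Matrix.map_pow Bu φ, hBq]
      ext i j
      simp
    rw [smul_pow, e, smul_zero]
  have hTi : ∀ a b, (Phi * Y.map (phiL φ p hp)) a b ∈ IL O := by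
    intro a b
    rw [Matrix.mul_apply]
    exact (IL O).sum_mem fun c _ => (IL O).mul_mem (hPhi a c) (phiL_mem_IL hφ p hp (hYi c b))
  have hinv' : ∀ i : ℤ, 1 ≤ i → i < (K : ℤ) → ∃ R : Matrix (u ⊕ w) (u ⊕ w) E,
      (∀ a b, R a b ∈ O) ∧ R * ((i : E) • (1 : Matrix (u ⊕ w) (u ⊕ w) E) + cz G) = 1 := by
    intro i hi1 hiK
    obtain ⟨k, rfl⟩ := Int.eq_ofNat_of_zero_le (by omega : 0 ≤ i)
    have hk0 : 0 < k := by omega
    have hkK : k < K := by omega
    have h1 := hinv k hk0 hkK
    have hdet : (cz G + (k : E) • (1 : Matrix (u ⊕ w) (u ⊕ w) E)).det ≠ 0 := by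
      have e : cz G + (k : E) • (1 : Matrix (u ⊕ w) (u ⊕ w) E) =
          fromBlocks (Bu + (k : E) • 1) 0 0 (Bn + (k : E) • 1) := by
        rw [hNF.c0, ← fromBlocks_one, fromBlocks_smul, fromBlocks_add]
        simp
      rw [e, det_fromBlocks_zero₁₂]
      refine mul_ne_zero ?_ ?_
      · have hk : (k : E) ≠ 0 := TR1.natCast_ne h hk0.ne'
        have hu : IsUnit (Bu + (k : E) • (1 : Matrix u u E)) := by
          have hc : Commute Bu ((k : E) • (1 : Matrix u u E)) := (Commute.one_right Bu).smul_right _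
          have h2 : IsUnit ((k : E) • (1 : Matrix u u E)) := by
            refine IsUnit.of_mul_eq_one (((k : E)⁻¹) • (1 : Matrix u u E)) ?_
            rw [Matrix.smul_mul, Matrix.one_mul, smul_smul, mul_inv_cancel₀ hk, one_smul]
          exact hNF.nil.isUnit_add_right_of_commute h2 hc
        exact ((Matrix.isUnit_iff_isUnit_det _).1 hu).ne_zero
      · have := hNF.inv k
        exact_mod_cast this
    obtain ⟨R, hR, hRT⟩ := TR1.inv_int _ (fun a b => by
      rw [Matrix.add_apply, Matrix.smul_apply, smul_eq_mul, Matrix.one_apply]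
      refine O.add_mem (hc0 a b) (O.mul_mem (natCast_mem O k) ?_)
      split_ifs
      · exact O.one_mem
      · exact O.zero_mem) hdet h1
    refine ⟨R, hR, ?_⟩
    rw [add_comm, Int.cast_natCast]
    exact hRT
  have := (Pool.H80.Cube.block_place hNF hGi (by exact_mod_cast hK : (0 : ℤ) < (K : ℤ))
    (Phi * Y.map (phiL φ p hp)) hTi ((p : E) • Bu.map φ) hB' hB'q hreg hlow Rn hRn hRB hinv'
    hYr hYi hY0 hY (Matrix.of fun a b => ((Phi * Y.map (phiL φ p hp)) (Sum.inl a) b).coeff 0)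
    (fun a b => by simp [zero_mem])).2
  intro a b k hk
  have h2 := this a b k hk
  rwa [Matrix.sub_apply, HahnSeries.coeff_sub] at h2

end Pool.H93.Cube
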