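import Pool.Agent.H93.CUBE.LStmts
import Pool.Agent.H10.CM.All
import Pool.Agent.H80.CUBE.L_TR1

namespace Pool.H93.Cube

open Matrix Pool.CM Polynomial

namespace TRN

section tr
variable {E : Type} [Field E]

/-- truncation of a power series at order `K` -/
noncomputable def tr (K : ℕ) (f : LaurentSeries E) : E[X] :=
  ∑ k ∈ Finset.range K, Polynomial.monomial k (f.coeff (k : ℤ))

theorem tr_coeff (K : ℕ) (f : LaurentSeries E) (n : ℕ) :
    (tr K f).coeff n = if n < K then f.coeff (n : ℤ) else 0 := by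
  unfold tr
  rw [Polynomial.finsetSum_coeff]
  simp only [Polynomial.coeff_monomial]
  rw [Finset.sum_ite_eq']
  simp only [Finset.mem_range]

theorem ex_tr_coeff (K : ℕ) {f : LaurentSeries E} (hf : f ∈ Rg E) (k : ℤ) :
    (ex E (algebraMap E[X] (RatFunc E) (tr K f))).coeff k = if k < K then f.coeff k else 0 := by
  rw [ex_algebraMap]
  by_cases hk : 0 ≤ k
  · obtain ⟨n, rfl⟩ := Int.eq_ofNat_of_zero_le hk
    rw [exP_coeff_nat, tr_coeff]
    simp only [Nat.cast_lt]
  · rw [exP_coeff_neg _ _ (by omega), hf k (by omega)]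
    simp

end tr

section clo
variable {X : Idx} {E : Type} [Field E] {A : PF X E}

theorem t_zero (hA : A.Ax) (i : X.I) : (0 : E) ∈ A.t i 0 :=
  (All.tcl X E A hA i).2.2.2.2.2.2.2 0 0 (A.pol i 0).zero_mem

theorem t_sum (hA : A.Ax) (i : X.I) {ι : Type} (s : Finset ι) (f : ι → E) (d : ℕ)
    (h : ∀ c ∈ s, f c ∈ A.t i d) : ∑ c ∈ s, f c ∈ A.t i (s.card * d) := by
  classical
  induction s using Finset.induction_on with
  | empty => simpa using t_zero hA i
  | insert a s ha ih =>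
    rw [Finset.sum_insert ha, Finset.card_insert_of_notMem ha, add_mul, one_mul, add_comm (s.card * d)]
    exact (All.tcl X E A hA i).2.2.1 _ _ _ _ (h a (Finset.mem_insert_self _ _))
      (ih fun c hc => h c (Finset.mem_insert_of_mem hc))

theorem fixM (hA : A.Ax) {m m' : Type} [Fintype m] [Fintype m'] (T : Matrix m m' E) :
    ∃ d : ℕ, X.Ev fun i => ∀ a b, T a b ∈ A.t i d := by
  choose d hd using fun a b => All.tfx X E A hA (T a b)
  refine ⟨∑ a, ∑ b, d a b, ?_⟩
  refine (Idx.Ev.all fun a => Idx.Ev.all fun b => hd a b).mono fun i hi a b => ?_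
  refine (All.tcl X E A hA i).2.1 _ _ ?_ (hi a b)
  calc d a b ≤ ∑ b, d a b := Finset.single_le_sum (f := fun b => d a b) (fun _ _ => Nat.zero_le _)
        (Finset.mem_univ b)
    _ ≤ _ := Finset.single_le_sum (f := fun a => ∑ b, d a b) (fun _ _ => Nat.zero_le _)
        (Finset.mem_univ a)

end clo

end TRN

theorem TRN_thm (h1 : TR1Stmt) (h2 : RGLStmt) (h3 : EXFStmt) (h4 : EXIStmt) : TRNStmt := by
  intro X E _ A hA u w _ _ _ _ G Bu Bn hNF n hHP Y hYr hY0 hY
  have hAx : A.ext.Ax := All.ext X E A hA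
  -- the constant of LEMMA R
  have hchi : ∀ i : ℕ, 1 ≤ i → ((cz (G.map (ex E))).charpoly).eval (i : E) ≠ 0 := by
    intro i hi
    have hE : CharZero E := charZero_of_Ax hA
    rw [hNF.c0, Matrix.eval_charpoly]
    have e : Matrix.scalar (u ⊕ w) (i : E) - fromBlocks Bu 0 0 Bn =
        fromBlocks ((i : E) • 1 - Bu) 0 0 ((i : E) • 1 - Bn) := by
      have e1 : Matrix.scalar (u ⊕ w) (i : E) = (i : E) • (1 : Matrix (u ⊕ w) (u ⊕ w) E) := by
        rw [Matrix.scalar_apply, Matrix.smul_one_eq_diagonal]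
      rw [e1, ← fromBlocks_one, fromBlocks_smul, sub_eq_add_neg, fromBlocks_neg, fromBlocks_add]
      simp [sub_eq_add_neg]
    rw [e, det_fromBlocks_zero₁₂]
    have hk : (i : E) ≠ 0 := by exact_mod_cast (by omega : i ≠ 0)
    refine mul_ne_zero ?_ ?_
    · have h2 : IsUnit ((i : E) • (1 : Matrix u u E)) := by
        refine IsUnit.of_mul_eq_one (((i : E)⁻¹) • (1 : Matrix u u E)) ?_
        rw [Matrix.smul_mul, Matrix.one_mul, smul_smul, mul_inv_cancel₀ hk, one_smul]
      have hc : Commute (-Bu) ((i : E) • (1 : Matrix u u E)) :=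
        (Commute.one_right (-Bu)).smul_right _
      have hu : IsUnit (-Bu + (i : E) • (1 : Matrix u u E)) :=
        hNF.nil.neg.isUnit_add_right_of_commute h2 hc
      have := ((Matrix.isUnit_iff_isUnit_det _).1 hu).ne_zero
      rwa [neg_add_eq_sub] at this
    · have := hNF.inv (-(i : ℤ))
      intro h0
      apply this
      have e2 : Bn + ((-(i : ℤ) : ℤ) : E) • (1 : Matrix w w E) = -((i : E) • 1 - Bn) := by
        push_cast
        rw [neg_sub, neg_smul, sub_eq_add_neg]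
      rw [e2, Matrix.det_neg, h0, mul_zero]
  obtain ⟨c, hc⟩ := h2 X E A hA (u ⊕ w) (G.map (ex E)) n hNF.reg hchi hHP
  refine ⟨c, fun M C1 I => ?_⟩
  -- truncation
  set K : ℕ := max I (C1 + 1) with hK
  have hK0 : 0 < K := by omega
  obtain ⟨yt, hyt⟩ : ∃ yt : Matrix (u ⊕ w) u (RatFunc E), ∀ a b,
      yt a b = algebraMap E[X] (RatFunc E) (TRN.tr K (Y a b)) :=
    ⟨Matrix.of fun a b => algebraMap E[X] (RatFunc E) (TRN.tr K (Y a b)), fun _ _ => rfl⟩
  have hytc : ∀ a b (k : ℤ), (ex E (yt a b)).coeff k = if k < K then (Y a b).coeff k else 0 := by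
    intro a b k
    rw [hyt]
    exact TRN.ex_tr_coeff K (hYr a b) k
  set Yt : Matrix (u ⊕ w) u (LaurentSeries E) := yt.map (ex E) with hYt
  have hYtr : MReg Yt := by
    intro a b k hk
    rw [hYt, Matrix.map_apply, hytc, hYr a b k hk]
    simp
  have hYt0 : cz Yt = fromRows 1 0 := by
    rw [← hY0]
    ext a b
    simp only [cz, hYt, Matrix.map_apply, hytc]
    rw [if_pos (by exact_mod_cast hK0)]
  have hD : ∀ a b, ∀ k < (K : ℤ), ((Y - Yt) a b).coeff k = 0 := by
    intro a b k hk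
    rw [Matrix.sub_apply, HahnSeries.coeff_sub, hYt, Matrix.map_apply, hytc, if_pos hk, sub_self]
  have hYte : ∀ a b, ∀ k < (K : ℤ),
      ((Yt.map nab + G.map (ex E) * Yt - Yt * cM Bu) a b).coeff k = 0 := by
    intro a b k hk
    have e : Yt.map nab + G.map (ex E) * Yt - Yt * cM Bu =
        -((Y - Yt).map nab + G.map (ex E) * (Y - Yt) - (Y - Yt) * cM Bu) := by
      have e1 : (Y - Yt).map nab = Y.map nab - Yt.map nab := by
        ext1 a b
        simp only [Matrix.map_apply, Matrix.sub_apply, map_sub]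
      rw [e1, Matrix.mul_sub, Matrix.sub_mul, ← hY]
      abel
    rw [e, Matrix.neg_apply, HahnSeries.coeff_neg, Matrix.sub_apply, Matrix.add_apply,
      HahnSeries.coeff_sub, HahnSeries.coeff_add, Matrix.map_apply, nab_coeff, hD a b k hk,
      mul_zero, Pool.H80.Cube.coeff_mul_cM', Matrix.mul_apply, HahnSeries.coeff_sum,
      Finset.sum_eq_zero, Finset.sum_eq_zero, add_zero, sub_zero, neg_zero]
    · intro c _
      rw [hD a c k hk, zero_mul]
    · intro c _
      exact Pool.H80.Cube.mul_zero_low (hNF.reg a c) (hD c b) k (by simpa using hk)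
  -- degrees
  obtain ⟨d0, hd0⟩ := TRN.fixM hAx yt
  obtain ⟨dG, hdG⟩ := TRN.fixM hAx G
  refine ⟨Fintype.card (u ⊕ w) * (C1 + d0), ?_⟩
  -- the places
  have hYti : X.Ev fun i => ∀ a b, Yt a b ∈ IL (A.O i) :=
    Idx.Ev.all fun a => Idx.Ev.all fun b => h4 X E A hA (yt a b)
  have hYi : X.Ev fun i => ∀ a b, ∀ k : Fin K, (Y a b).coeff ((k : ℕ) : ℤ) ∈ A.O i := by
    refine Idx.Ev.all fun a => Idx.Ev.all fun b => Idx.Ev.all fun k => ?_
    by_cases h0 : (Y a b).coeff ((k : ℕ) : ℤ) = 0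
    · exact Idx.Ev.of_forall fun i => by rw [h0]; exact (A.O i).zero_mem
    · exact (hA.pf2 _ h0).mono fun i hi => hi.2.1
  have hdn : X.Ev fun i => (Bn.det)⁻¹ ∈ A.O i := by
    refine (hA.pf2 Bn.det ?_).mono fun i hi => hi.2.2
    simpa using hNF.inv 0
  have hdk : X.Ev fun i => ∀ k : Fin K, ((cz (G.map (ex E)) +
      ((k : ℕ) : E) • (1 : Matrix (u ⊕ w) (u ⊕ w) E)).det)⁻¹ ∈ A.O i := by
    refine Idx.Ev.all fun k => ?_
    by_cases h0 : (cz (G.map (ex E)) + ((k : ℕ) : E) • (1 : Matrix (u ⊕ w) (u ⊕ w) E)).det = 0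
    · exact Idx.Ev.of_forall fun i => by rw [h0, _root_.inv_zero]; exact (A.O i).zero_mem
    · exact (hA.pf2 _ h0).mono fun i hi => hi.2.2
  refine ((((((hYti.and hYi).and hdn).and hdk).and (hc C1)).and hHP.1).and
    ((hd0.and hdG).and (Idx.Ev.large (K + 1)))).mono ?_
  rintro i ⟨⟨⟨⟨⟨⟨hYti, hYi⟩, hdn⟩, hdk⟩, hROK⟩, hGi⟩, ⟨⟨hd0, hdG⟩, hlarge⟩⟩ Phi hPhi hcong
  have hdvr : Dvr (A.O i) (X.p i) := dvr_of_Ax hA i
  have hp := (X.hp i).ne_zero
  obtain ⟨hT1, hT2, hT3, hT4, hT5, hT6, hT7, hT8⟩ := All.tcl X (RatFunc E) A.ext hAx i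
  -- Phi
  have hPint : MInt (A.O i) (Phi.map (ex E)) := fun a b k =>
    (All.xt X E A hA i _ _ (hPhi a b)).1 k
  have hPpole : ∀ a b, ∀ k < -((X.p i * C1 : ℕ) : ℤ), ((Phi.map (ex E)) a b).coeff k = 0 := by
    intro a b k hk
    refine (All.xt X E A hA i _ _ (hPhi a b)).2 k ?_
    rw [mul_comm C1]
    exact hk
  have hpK : K + X.p i * C1 ≤ X.p i * K := by
    have h5 : C1 + 1 ≤ K := le_max_right _ _
    calc K + X.p i * C1 ≤ X.p i * 1 + X.p i * C1 := by omega
      _ = X.p i * (C1 + 1) := by ring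
      _ ≤ X.p i * K := Nat.mul_le_mul_left _ h5
  have hphiO : ∀ x ∈ A.O i, A.phi i x ∈ A.O i := fun x hx => hA.phi_O i x hx
  -- horizontality
  have hex1 : ∀ x : RatFunc E, ex E (nabF E x) = nab (ex E x) := by
    intro x
    ext k
    rw [nab_coeff]
    exact (All.xde X E A x k).1
  have hhor : CongL (A.O i) (X.p i) (M + c) ((Phi.map (ex E)).map nab + G.map (ex E) * Phi.map (ex E))
      ((HahnSeries.C (X.p i : E) : LaurentSeries E) •
        (Phi.map (ex E) * (G.map (ex E)).map (phiL (A.phi i) (X.p i) hp))) := by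
    intro a b k
    set x : RatFunc E := (Phi.map (nabF E) + G * Phi) a b -
      ((X.p i : RatFunc E) • (Phi * G.map (A.ext.phi i))) a b with hx
    have hpt : (X.p i : RatFunc E) ∈ A.ext.t i 0 := by
      refine hT8 0 _ ?_
      rw [← nsmul_one]
      exact (A.ext.pol i 0).nsmul_mem (hAx.pol_one i) _
    have hxt : ∃ d, x ∈ A.ext.t i d := by
      have q1 : nabF E (Phi a b) ∈ A.ext.t i (C1 * X.p i + C1 * X.p i) :=
        hT7 _ none _ (hPhi a b)
      have q2 : (G * Phi) a b ∈ A.ext.t i ((Finset.univ : Finset (u ⊕ w)).card * (dG + C1 * X.p i)) := by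
        rw [Matrix.mul_apply]
        exact TRN.t_sum hAx i Finset.univ (fun c => G a c * Phi c b) _
          fun c _ => hT4 _ _ _ _ (hdG a c) (hPhi c b)
      have q3 : (Phi * G.map (A.ext.phi i)) a b ∈
          A.ext.t i ((Finset.univ : Finset (u ⊕ w)).card * (C1 * X.p i + X.p i * dG)) := by
        rw [Matrix.mul_apply]
        exact TRN.t_sum hAx i Finset.univ (fun c => Phi a c * (G.map (A.ext.phi i)) c b) _
          fun c _ => hT4 _ _ _ _ (hPhi a c) (hT6 _ _ (hdG c b))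
      have q4 := hT4 _ _ _ _ hpt q3
      have q5 := hT3 _ _ _ _ (hT3 _ _ _ _ q1 q2) (hT5 _ _ q4)
      exact ⟨_, by rw [hx, sub_eq_add_neg]; exact q5⟩
    obtain ⟨d, hxd⟩ := hxt
    have h6 := (All.xcg X E A hA i d x (M + c) hxd).1 (hcong a b) k
    have h7 : ex E x = ((Phi.map (ex E)).map nab + G.map (ex E) * Phi.map (ex E)) a b -
        ((HahnSeries.C (X.p i : E) : LaurentSeries E) •
        (Phi.map (ex E) * (G.map (ex E)).map (phiL (A.phi i) (X.p i) hp))) a b := by
      rw [hx]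
      simp only [map_sub, map_add, Matrix.add_apply, Matrix.map_apply, Matrix.mul_apply,
        Matrix.smul_apply, smul_eq_mul, map_mul, map_sum, hex1, h3 X E A i, map_natCast]
    rw [← h7]
    exact h6
  have hmain := h1 E (A.O i) (X.p i) hdvr (A.phi i) hphiO u w (G.map (ex E)) Bu Bn hNF hGi hdn K hK0
    (fun k _ hk => hdk ⟨k, hk⟩) Yt hYtr hYti hYt0 hYte (Phi.map (ex E)) M c C1 hPint hPpole hpK
    hhor hROK
  set T : Matrix (u ⊕ w) u (LaurentSeries E) :=
    Phi.map (ex E) * Yt.map (phiL (A.phi i) (X.p i) hp) with hT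
  -- extraction
  have hS : ∀ a b, ∃ y ∈ A.t i (Fintype.card (u ⊕ w) * (C1 + d0) * X.p i),
      (T (Sum.inl a) b).coeff 0 - y ∈ pI (A.O i) (X.p i) M := by
    intro a b
    set s : RatFunc E := ∑ c, Phi (Sum.inl a) c * A.ext.phi i (yt c b) with hs
    have hst : s ∈ A.ext.t i (Fintype.card (u ⊕ w) * (C1 + d0) * X.p i) := by
      have q := TRN.t_sum hAx i Finset.univ (fun c => Phi (Sum.inl a) c * A.ext.phi i (yt c b))
        (C1 * X.p i + X.p i * d0) (fun c _ => hT4 _ _ _ _ (hPhi _ c) (hT6 _ _ (hd0 c b)))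
      have e : (Finset.univ : Finset (u ⊕ w)).card * (C1 * X.p i + X.p i * d0) =
          Fintype.card (u ⊕ w) * (C1 + d0) * X.p i := by
        rw [Finset.card_univ]
        ring
      rw [← e]
      exact q
    have hexs : ex E s = T (Sum.inl a) b := by
      rw [hs, hT, hYt]
      simp only [map_sum, map_mul, Matrix.mul_apply, Matrix.map_apply, h3 X E A i]
    have hneg : ∀ k : ℤ, k < 0 → A.Dv i M ((ex E s).coeff k) := by
      intro k hk
      have h8 := hmain (Sum.inl a) b k (by omega)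
      have h9 : ((Yt * cM (Matrix.of fun a b => (T (Sum.inl a) b).coeff 0)) (Sum.inl a) b).coeff k
          = 0 := by
        rw [Pool.H80.Cube.coeff_mul_cM']
        refine Finset.sum_eq_zero fun c _ => ?_
        rw [hYtr _ c k hk, zero_mul]
      rw [h9, sub_zero] at h8
      rw [hexs]
      exact h8
    obtain ⟨y, hy, hye⟩ := All.xte X E A hA i _ s M hst hneg
    refine ⟨y, hy, ?_⟩
    rw [← hexs]
    exact hye
  choose PhiH hPH1 hPH2 using hS
  refine ⟨Matrix.of PhiH, hPH1, ?_⟩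
  intro a b k hk
  have hkK : k < (K : ℤ) := by
    have : I ≤ K := le_max_left _ _
    omega
  -- replace `Y` by `Yt` on both sides
  have e1 : (((Phi.map (ex E)) * Y.map (phiL (A.phi i) (X.p i) hp)) a b).coeff k =
      (T a b).coeff k := by
    have : ((Phi.map (ex E)) * Y.map (phiL (A.phi i) (X.p i) hp)) a b - T a b =
        ∑ c, (Phi.map (ex E)) a c * phiL (A.phi i) (X.p i) hp ((Y - Yt) c b) := by
      rw [hT, Matrix.mul_apply, Matrix.mul_apply, ← Finset.sum_sub_distrib]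
      refine Finset.sum_congr rfl fun c _ => ?_
      simp only [Matrix.map_apply, Matrix.sub_apply, map_sub, mul_sub]
    rw [← sub_eq_zero, ← HahnSeries.coeff_sub, this, HahnSeries.coeff_sum]
    refine Finset.sum_eq_zero fun c _ => ?_
    refine Pool.H80.Cube.mul_zero_low (hPpole a c)
      (Pool.H80.Cube.phiL_low (φ := A.phi i) (hp := hp) (hD c b)) k ?_
    have h5 : (((K + X.p i * C1 : ℕ)) : ℤ) ≤ ((X.p i * K : ℕ) : ℤ) := by exact_mod_cast hpK
    push_cast at h5 ⊢
    linarith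
  rw [e1]
  have h8 := hmain a b k hkK
  rw [Pool.H80.Cube.coeff_mul_cM'] at h8 ⊢
  have e2 : ∀ c, (Yt a c).coeff k = (Y a c).coeff k := by
    intro c
    have := hD a c k hkK
    rw [Matrix.sub_apply, HahnSeries.coeff_sub, sub_eq_zero] at this
    exact this.symm
  have h9 : ∑ c, (Yt a c).coeff k * (Matrix.of fun a b => (T (Sum.inl a) b).coeff 0) c b -
      ∑ c, (Y a c).coeff k * Matrix.of PhiH c b ∈ pI (A.O i) (X.p i) M := by
    rw [← Finset.sum_sub_distrib]
    refine sum_mem fun c _ => ?_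
    rw [e2, ← mul_sub]
    have h10 : (Y a c).coeff k ∈ A.O i := by
      rw [← e2]
      exact hYti a c k
    exact pI_mul_left h10 (hPH2 c b)
  have := add_mem h8 h9
  rwa [sub_add_sub_cancel] at this

end Pool.H93.Cube
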