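import Pool.Agent.H93.CUBE.LDefs

/-! Order by order arguments for the limit of a Frobenius matrix, at one place. -/

namespace Pool.H80.Cube

open Pool.CM Pool.H93.Cube Matrix

section coef
variable {E : Type} [Field E] {O : Subring E} {p : ℕ}

/-- a regular integral series times a series which is divisible by `p ^ M` below `K` -/
theorem mul_low {f g : LaurentSeries E} (hf : f ∈ Rg E) (hfi : f ∈ IL O) {M : ℕ} {K : ℤ}
    (hg : ∀ k < K, g.coeff k ∈ pI O p M) : ∀ k < K, (f * g).coeff k ∈ pI O p M := by
  intro k hk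
  obtain ⟨b, hb⟩ := exists_bound g
  rw [coeff_mul_Icc hf hb]
  refine sum_mem fun j hj => ?_
  have := Finset.mem_Icc.1 hj
  exact pI_mul_left (hfi j) (hg _ (by omega))

/-- coefficient of a product with a regular series, when the lower coefficients of the second
factor are divisible -/
theorem mul_low_at {f g : LaurentSeries E} (hf : f ∈ Rg E) (hfi : f ∈ IL O) {M : ℕ} {K : ℤ}
    (hg : ∀ k < K, g.coeff k ∈ pI O p M) :
    (f * g).coeff K - f.coeff 0 * g.coeff K ∈ pI O p M := by
  have h1 : f - HahnSeries.C (f.coeff 0) ∈ Rg E := sub_mem hf (by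
    intro k hk
    rw [HahnSeries.C_apply, HahnSeries.coeff_single_of_ne (by omega)])
  have h0 : (f - HahnSeries.C (f.coeff 0)).coeff 0 = 0 := by
    simp [HahnSeries.C_apply]
  have hlow : ∀ k < (1 : ℤ), (f - HahnSeries.C (f.coeff 0)).coeff k = 0 := by
    intro k hk
    rcases lt_or_eq_of_le (Int.lt_add_one_iff.1 hk : k ≤ 0) with h | h
    · exact h1 k h
    · rw [h]; exact h0
  have e : (f * g).coeff K - f.coeff 0 * g.coeff K =
      ((f - HahnSeries.C (f.coeff 0)) * g).coeff K := by
    rw [sub_mul, HahnSeries.coeff_sub, HahnSeries.C_mul_eq_smul, HahnSeries.coeff_smul,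
      smul_eq_mul]
  rw [e]
  obtain ⟨b, hb⟩ := exists_bound g
  rw [coeff_mul_Icc hlow hb]
  refine sum_mem fun j hj => ?_
  have hj' := Finset.mem_Icc.1 hj
  refine pI_mul_left ?_ (hg _ (by omega))
  rw [HahnSeries.coeff_sub, HahnSeries.C_apply, HahnSeries.coeff_single_of_ne (by omega), sub_zero]
  exact hfi j

/-- product of a series with poles of order at most `P` and a series vanishing below `K` -/
theorem mul_zero_low {f g : LaurentSeries E} {a b : ℤ} (hf : ∀ k < a, f.coeff k = 0)
    (hg : ∀ k < b, g.coeff k = 0) : ∀ k < a + b, (f * g).coeff k = 0 := by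
  intro k hk
  rw [coeff_mul_Icc hf hg, Finset.Icc_eq_empty (by omega), Finset.sum_empty]

theorem phiL_low {φ : E →+* E} {hp : p ≠ 0} {f : LaurentSeries E} {K : ℤ}
    (hf : ∀ k < K, f.coeff k = 0) : ∀ k < (p : ℤ) * K, (phiL φ p hp f).coeff k = 0 := by
  intro k hk
  rw [phiL_coeff]
  split_ifs with h
  · obtain ⟨j, rfl⟩ := h
    have hpos : (0 : ℤ) < p := by exact_mod_cast Nat.pos_of_ne_zero hp
    rw [Int.mul_ediv_cancel_left _ hpos.ne', hf j (lt_of_mul_lt_mul_left hk hpos.le), map_zero]
  · rfl

end coef

section low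
variable {E : Type} [Field E] {O : Subring E} {p : ℕ} {m u w : Type} [Fintype m] [DecidableEq m]
  [Fintype u] [DecidableEq u] [Fintype w] [DecidableEq w]

/-- vectors which are regular modulo `p ^ M` -/
def SR (O : Subring E) (p : ℕ) (m : Type) (M : ℕ) : AddSubgroup (m → LaurentSeries E) where
  carrier := {v | ∀ a, ∀ k < 0, (v a).coeff k ∈ pI O p M}
  add_mem' := by
    intro v w hv hw a k hk
    rw [Pi.add_apply, HahnSeries.coeff_add]
    exact add_mem (hv a k hk) (hw a k hk)
  zero_mem' := fun a k _ => zero_mem _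
  neg_mem' := by
    intro v hv a k hk
    rw [Pi.neg_apply, HahnSeries.coeff_neg]
    exact neg_mem (hv a k hk)

omit [DecidableEq m] in
theorem SR_op {G : Matrix m m (LaurentSeries E)} (hG : MReg G) (hGi : MInt O G) {M : ℕ}
    {v : m → LaurentSeries E} (hv : v ∈ SR O p m M) : op G v ∈ SR O p m M := by
  intro a k hk
  rw [op_apply, HahnSeries.coeff_add]
  refine add_mem ?_ ?_
  · rw [nab_coeff]
    exact pI_mul_left (intCast_mem O k) (hv a k hk)
  · rw [HahnSeries.coeff_sum]
    exact sum_mem fun b _ => mul_low (hG a b) (hGi a b) (hv b) k hk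

omit [DecidableEq m] in
theorem SR_op_pow {G : Matrix m m (LaurentSeries E)} (hG : MReg G) (hGi : MInt O G) {M : ℕ}
    (q : ℕ) {v : m → LaurentSeries E} (hv : v ∈ SR O p m M) : ((op G) ^ q) v ∈ SR O p m M := by
  induction q with
  | zero => simpa using hv
  | succ q ih =>
    rw [pow_succ', Module.End.mul_apply]
    exact SR_op hG hGi ih

/-- constant vectors -/
noncomputable def cv (x : u → E) : u → LaurentSeries E := fun b => HahnSeries.C (x b)

omit [DecidableEq m] [DecidableEq u] in
theorem op_mulVec_cv (G : Matrix m m (LaurentSeries E)) (T : Matrix m u (LaurentSeries E))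
    (x : u → E) : op G (T.mulVec (cv x)) = (T.map nab + G * T).mulVec (cv x) := by
  funext a
  rw [op_apply]
  simp only [Matrix.mulVec, dotProduct, cv, Matrix.add_apply, Matrix.map_apply, Matrix.mul_apply,
    add_mul, Finset.sum_add_distrib, map_sum, nab_mul, nab_C, mul_zero, add_zero]
  congr 1
  simp only [Finset.mul_sum, Finset.sum_mul]
  rw [Finset.sum_comm]
  simp only [mul_assoc]

omit [Fintype m] [DecidableEq m] [DecidableEq u] in
theorem mulVec_cv_cM (T : Matrix m u (LaurentSeries E)) (B : Matrix u u E) (x : u → E) :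
    (T * cM B).mulVec (cv x) = T.mulVec (cv (B.mulVec x)) := by
  rw [← Matrix.mulVec_mulVec]
  congr 1
  funext b
  simp only [Matrix.mulVec, dotProduct, cv, map_sum, map_mul, Matrix.map_apply]

omit [DecidableEq m] in
/-- The iterates of `∇ + G` on a matrix `T` with `(∇ + G) T = T B'` modulo regular matrices
and `p ^ M`. -/
theorem op_pow_cols {G : Matrix m m (LaurentSeries E)} (hG : MReg G) (hGi : MInt O G) {M : ℕ}
    (T : Matrix m u (LaurentSeries E)) (B' : Matrix u u E) (hB : ∀ a b, B' a b ∈ O)
    (h : ∀ a b, ∀ k < 0, ((T.map nab + G * T - T * cM B') a b).coeff k ∈ pI O p M) (q : ℕ)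
    (x : u → E) (hx : ∀ b, x b ∈ O) :
    ((op G) ^ q) (T.mulVec (cv x)) - T.mulVec (cv ((B' ^ q).mulVec x)) ∈ SR O p m M := by
  induction q generalizing x with
  | zero => simp [zero_mem]
  | succ q ih =>
    have h1 : op G (T.mulVec (cv x)) = (T.map nab + G * T - T * cM B').mulVec (cv x) +
        T.mulVec (cv (B'.mulVec x)) := by
      rw [op_mulVec_cv, ← mulVec_cv_cM, ← Matrix.add_mulVec, sub_add_cancel]
    have h2 : (T.map nab + G * T - T * cM B').mulVec (cv x) ∈ SR O p m M := by
      intro a k hk
      simp only [Matrix.mulVec, dotProduct, cv]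
      rw [HahnSeries.coeff_sum]
      refine sum_mem fun b _ => ?_
      rw [mul_comm, HahnSeries.C_mul_eq_smul, HahnSeries.coeff_smul, smul_eq_mul]
      exact pI_mul_left (hx b) (h a b k hk)
    rw [pow_succ, Module.End.mul_apply, h1, map_add]
    have h3 := ih (B'.mulVec x) (fun b => by
      simp only [Matrix.mulVec, dotProduct]
      exact O.sum_mem fun c _ => O.mul_mem (hB b c) (hx c))
    rw [Matrix.mulVec_mulVec, ← pow_succ] at h3
    have h4 := SR_op_pow hG hGi q h2
    have := add_mem h4 h3
    convert this using 1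
    abel

omit [DecidableEq m] in
/-- Regularity modulo `p ^ M` of a matrix `T` with `(∇ + G) T = T B'`, `B'` nilpotent. -/
theorem reg_cols (hO : Dvr O p) {G : Matrix m m (LaurentSeries E)} (hG : MReg G) (hGi : MInt O G)
    {M c q P : ℕ} (hR : ROK O p G q c P) (T : Matrix m u (LaurentSeries E)) (B' : Matrix u u E)
    (hB : ∀ a b, B' a b ∈ O) (hBq : B' ^ q = 0)
    (hP : ∀ a b, ∀ k < -(P : ℤ), (T a b).coeff k = 0)
    (h : ∀ a b, ∀ k < 0, ((T.map nab + G * T - T * cM B') a b).coeff k ∈ pI O p (c + M)) :
    ∀ a b, ∀ k < 0, (T a b).coeff k ∈ pI O p M := by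
  classical
  intro a b k hk
  have hx : ∀ b', (Pi.single b (1 : E) : u → E) b' ∈ O := by
    intro b'
    by_cases hb : b' = b
    · subst hb; simp [O.one_mem]
    · simp [hb, O.zero_mem]
  have hcol : T.mulVec (cv (Pi.single b (1 : E))) = fun a => T a b := by
    funext a'
    simp only [Matrix.mulVec, dotProduct, cv]
    rw [Finset.sum_eq_single b]
    · simp
    · intro b' _ hb'
      simp [hb']
    · intro hb'; exact absurd (Finset.mem_univ _) hb'
  have h1 := op_pow_cols hG hGi T B' hB h q (Pi.single b 1) hx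
  rw [hBq, Matrix.zero_mulVec] at h1
  have h0 : T.mulVec (cv (0 : u → E)) = 0 := by
    funext a'
    simp [Matrix.mulVec, dotProduct, cv]
  rw [h0, sub_zero, hcol] at h1
  have h2 := hR (c + M) (fun a => T a b) (fun a' k' hk' => hP a' b k' hk') h1 a k hk
  exact hO.of_mul_mem h2

/-- A matrix with `T x = x B'` modulo `p ^ M`, `T` invertible and `B'` nilpotent is zero. -/
theorem kill {M q : ℕ} (R T : Matrix w w E) (hRT : R * T = 1) (hR : ∀ a b, R a b ∈ O)
    (B' : Matrix u u E) (hB : ∀ a b, B' a b ∈ O) (hBq : B' ^ q = 0)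
    (x : Matrix w u E) (h : ∀ a b, (T * x - x * B') a b ∈ pI O p M) : ∀ a b, x a b ∈ pI O p M := by
  have key : ∀ k : ℕ, ∀ a b, (x - R ^ k * x * B' ^ k) a b ∈ pI O p M := by
    intro k
    induction k with
    | zero => intro a b; simp [zero_mem]
    | succ k ih =>
      have e : x - R ^ (k + 1) * x * B' ^ (k + 1) =
          (x - R * x * B') + R * (x - R ^ k * x * B' ^ k) * B' := by
        rw [pow_succ', pow_succ, Matrix.mul_sub, Matrix.sub_mul]
        simp only [Matrix.mul_assoc]
        abel
      have e2 : x - R * x * B' = R * (T * x - x * B') := by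
        rw [Matrix.mul_sub, ← Matrix.mul_assoc, hRT, Matrix.one_mul, Matrix.mul_assoc]
      intro a b
      rw [e, e2, Matrix.add_apply]
      refine add_mem ?_ ?_
      · rw [Matrix.mul_apply]
        exact sum_mem fun c _ => pI_mul_left (hR a c) (h c b)
      · rw [Matrix.mul_apply]
        refine sum_mem fun c _ => pI_mul_right ?_ (hB c b)
        rw [Matrix.mul_apply]
        exact sum_mem fun d _ => pI_mul_left (hR a d) (ih d c)
  intro a b
  have := key q a b
  rw [hBq, Matrix.mul_zero, sub_zero] at this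
  exact this

/-- order by order: `δ` with `(∇ + G) δ = δ B'` modulo `p ^ M` in orders `< K`, vanishing
modulo `p ^ M` in orders `< 1`, vanishes in all orders `< K` -/
theorem kill_orders {G : Matrix m m (LaurentSeries E)} (hG : MReg G) (hGi : MInt O G) {M q : ℕ}
    {K : ℤ} (B' : Matrix u u E) (hB : ∀ a b, B' a b ∈ O) (hBq : B' ^ q = 0)
    (δ : Matrix m u (LaurentSeries E))
    (hinv : ∀ i : ℤ, 1 ≤ i → i < K → ∃ R : Matrix m m E, (∀ a b, R a b ∈ O) ∧
      R * ((i : E) • (1 : Matrix m m E) + cz G) = 1)
    (h : ∀ a b, ∀ k < K, ((δ.map nab + G * δ - δ * cM B') a b).coeff k ∈ pI O p M)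
    (h0 : ∀ a b, ∀ k < 1, (δ a b).coeff k ∈ pI O p M) :
    ∀ a b, ∀ k < K, (δ a b).coeff k ∈ pI O p M := by
  have key : ∀ n : ℕ, (n : ℤ) ≤ K → ∀ a b, ∀ k < (n : ℤ), (δ a b).coeff k ∈ pI O p M := by
    intro n
    induction n with
    | zero => intro _ a b k hk; exact h0 a b k (by omega)
    | succ n ih =>
      intro hn a b k hk
      have ih' := ih (by push_cast at hn; omega)
      rcases lt_or_eq_of_le (by push_cast at hk; omega : k ≤ (n : ℤ)) with hk' | hk'
      · exact ih' a b k hk'
      · subst hk'
        rcases Nat.eq_zero_or_pos n with hn0 | hn0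
        · subst hn0; exact h0 a b _ (by norm_num)
        · obtain ⟨R, hR, hRT⟩ := hinv n (by omega) (by push_cast at hn; omega)
          obtain ⟨x, hx⟩ : ∃ x : Matrix m u E, ∀ a b, x a b = (δ a b).coeff n :=
            ⟨fun a b => (δ a b).coeff n, fun _ _ => rfl⟩
          rw [← hx]
          refine kill (O := O) (p := p) R (((n : ℤ) : E) • (1 : Matrix m m E) + cz G) hRT hR B' hB
            hBq x ?_ a b
          · intro a b
            have e := h a b n (by push_cast at hn; omega)
            rw [Matrix.sub_apply, Matrix.add_apply, Matrix.map_apply, HahnSeries.coeff_sub,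
              HahnSeries.coeff_add, nab_coeff, Matrix.mul_apply, Matrix.mul_apply,
              HahnSeries.coeff_sum, HahnSeries.coeff_sum] at e
            have e2 : ∑ c, (G a c * δ c b).coeff (n : ℤ) -
                ∑ c, (G a c).coeff 0 * (δ c b).coeff n ∈ pI O p M := by
              rw [← Finset.sum_sub_distrib]
              exact sum_mem fun c _ => mul_low_at (hG a c) (hGi a c) (ih' c b)
            have e3 : ∑ c, (δ a c * cM B' c b).coeff (n : ℤ) = ∑ c, (δ a c).coeff n * B' c b := by
              refine Finset.sum_congr rfl fun c _ => ?_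
              have ec : cM B' c b = HahnSeries.C (B' c b) := rfl
              rw [ec, mul_comm, HahnSeries.C_mul_eq_smul, HahnSeries.coeff_smul,
                smul_eq_mul, mul_comm]
            rw [e3] at e
            have e4 := sub_mem e e2
            have e5 : ((((n : ℤ) : E) • (1 : Matrix m m E) + cz G) * x - x * B') a b =
                ((n : ℤ) : E) * (δ a b).coeff n + ∑ c, (G a c).coeff 0 * (δ c b).coeff n -
                  ∑ c, (δ a c).coeff n * B' c b := by
              rw [Matrix.sub_apply, Matrix.add_mul, Matrix.add_apply, Matrix.smul_mul,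
                Matrix.one_mul, Matrix.smul_apply, Matrix.mul_apply, Matrix.mul_apply]
              simp [cz, hx]
            rw [e5]
            convert e4 using 1
            ring
  intro a b k hk
  by_cases hK : 0 ≤ K
  · obtain ⟨n, rfl⟩ := Int.eq_ofNat_of_zero_le hK
    exact key n le_rfl a b k hk
  · exact h0 a b k (by omega)

end low

end Pool.H80.Cube
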