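import Pool.Agent.H80.CUBE.Lim1

/-! Derivations of the coefficients, products, special vector and functional at one place. -/

namespace Pool.H80.Cube

open Pool.CM Pool.H93.Cube Matrix

section dhor
variable {E : Type} [Field E] {m n u : Type} [Fintype m] [Fintype n] [Fintype u]
  (δ : Derivation ℤ E E)

omit [Fintype m] [Fintype u] in
theorem map_cmap_mul (A : Matrix m n (LaurentSeries E)) (B : Matrix n u (LaurentSeries E)) :
    (A * B).map (cmap (δ : E →+ E)) =
      A.map (cmap (δ : E →+ E)) * B + A * B.map (cmap (δ : E →+ E)) := by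
  ext1 a b
  simp only [Matrix.map_apply, Matrix.mul_apply, Matrix.add_apply, map_sum, cmap_mul,
    Finset.sum_add_distrib]

theorem cmap_C (x : E) : cmap (δ : E →+ E) (HahnSeries.C x) = HahnSeries.C (δ x) := by
  ext k
  rw [cmap_coeff]
  by_cases h : k = 0
  · subst h; simp
  · simp [HahnSeries.C_apply, HahnSeries.coeff_single_of_ne h]

omit [Fintype m] [Fintype u] in
theorem cM_map_cmap (B : Matrix m u E) :
    (cM B).map (cmap (δ : E →+ E)) = cM (B.map δ) := by
  ext1 a b
  simp only [Matrix.map_apply, cmap_C]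

omit [Fintype m] [Fintype u] in
theorem map_cmap_phiL (φ : E →+* E) (p : ℕ) (hp : p ≠ 0) (h : ∀ x, δ (φ x) = (p : E) * φ (δ x))
    (Y : Matrix m u (LaurentSeries E)) :
    (Y.map (phiL φ p hp)).map (cmap (δ : E →+ E)) =
      (HahnSeries.C (p : E) : LaurentSeries E) • (Y.map (cmap (δ : E →+ E))).map (phiL φ p hp) := by
  ext1 a b
  simp only [Matrix.map_apply, Matrix.smul_apply, cmap_phiL φ δ p hp h, smul_eq_mul]

/-- The connection in the direction `δ` on `Φ φ(Y)`. -/
theorem hor_mul_d (φ : E →+* E) (p : ℕ) (hp : p ≠ 0) (h : ∀ x, δ (φ x) = (p : E) * φ (δ x))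
    (G Phi : Matrix m m (LaurentSeries E)) (Y : Matrix m u (LaurentSeries E)) (B : Matrix u u E) :
    (Phi * Y.map (phiL φ p hp)).map (cmap (δ : E →+ E)) + G * (Phi * Y.map (phiL φ p hp)) -
        (Phi * Y.map (phiL φ p hp)) * cM ((p : E) • B.map φ) =
      (Phi.map (cmap (δ : E →+ E)) + G * Phi - (HahnSeries.C (p : E) : LaurentSeries E) •
        (Phi * G.map (phiL φ p hp))) * Y.map (phiL φ p hp) +
      (HahnSeries.C (p : E) : LaurentSeries E) •
        (Phi * (Y.map (cmap (δ : E →+ E)) + G * Y - Y * cM B).map (phiL φ p hp)) := by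
  have e1 : (Y.map (cmap (δ : E →+ E)) + G * Y - Y * cM B).map (phiL φ p hp) =
      (Y.map (cmap (δ : E →+ E))).map (phiL φ p hp) + G.map (phiL φ p hp) * Y.map (phiL φ p hp) -
        Y.map (phiL φ p hp) * cM (B.map φ) := by
    rw [← map_phiL_mul, ← cM_map_phiL φ p hp, ← map_phiL_mul]
    ext1 a b
    simp only [Matrix.map_apply, Matrix.add_apply, Matrix.sub_apply, map_add, map_sub]
  have e2 : cM ((p : E) • B.map φ) = (HahnSeries.C (p : E) : LaurentSeries E) • cM (B.map φ) := by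
    ext1 a b
    simp only [Matrix.map_apply, Matrix.smul_apply, smul_eq_mul, map_mul]
  rw [map_cmap_mul, map_cmap_phiL δ φ p hp h, e1, e2]
  simp only [Matrix.mul_smul, Matrix.mul_add, Matrix.mul_sub, Matrix.add_mul, Matrix.sub_mul,
    Matrix.smul_mul, smul_add, smul_sub, Matrix.mul_assoc]
  abel

end dhor

section dplace
variable {E : Type} [Field E] {O : Subring E} {p : ℕ} {m u w : Type} [Fintype m] [DecidableEq m]
  [Fintype u] [DecidableEq u] [Fintype w] [DecidableEq w]

omit [DecidableEq m] [DecidableEq u] in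
/-- `Φ φ(Y)` is horizontal in the direction `δ` modulo `p ^ M` in orders `< K`. -/
theorem hor_low_d (hp : p ≠ 0) (φ : E →+* E) (hφ : ∀ x ∈ O, φ x ∈ O) (δ : Derivation ℤ E E)
    (hδφ : ∀ x, δ (φ x) = (p : E) * φ (δ x))
    {G : Matrix m m (LaurentSeries E)} {M P : ℕ} {K K' : ℤ} {Phi : Matrix m m (LaurentSeries E)}
    (hPP : ∀ a b, ∀ k < -(P : ℤ), (Phi a b).coeff k = 0)
    (hor : CongL O p M (Phi.map (cmap (δ : E →+ E)) + G * Phi)
      ((HahnSeries.C (p : E) : LaurentSeries E) • (Phi * G.map (phiL φ p hp))))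
    {Y : Matrix m u (LaurentSeries E)} (hYi : MInt O Y) {B : Matrix u u E}
    (hY : ∀ a b, ∀ k < K, ((Y.map (cmap (δ : E →+ E)) + G * Y - Y * cM B) a b).coeff k = 0)
    (hPK : (P : ℤ) + K' ≤ p * K) :
    ∀ a b, ∀ k < K', (((Phi * Y.map (phiL φ p hp)).map (cmap (δ : E →+ E)) +
        G * (Phi * Y.map (phiL φ p hp)) -
        (Phi * Y.map (phiL φ p hp)) * cM ((p : E) • B.map φ)) a b).coeff k ∈ pI O p M := by
  intro a b k hk
  rw [hor_mul_d δ φ p hp hδφ, Matrix.add_apply, HahnSeries.coeff_add]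
  refine add_mem ?_ ?_
  · rw [Matrix.mul_apply, HahnSeries.coeff_sum]
    refine sum_mem fun c _ => ?_
    exact pL_mul_right (hor a c) (phiL_mem_IL hφ p hp (hYi c b)) k
  · have : (((HahnSeries.C (p : E) : LaurentSeries E) •
        (Phi * (Y.map (cmap (δ : E →+ E)) + G * Y - Y * cM B).map (phiL φ p hp))) a b).coeff k
          = 0 := by
      rw [Matrix.smul_apply, smul_eq_mul, HahnSeries.C_mul_eq_smul, HahnSeries.coeff_smul,
        Matrix.mul_apply, HahnSeries.coeff_sum, Finset.sum_eq_zero, smul_zero]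
      intro c _
      exact mul_zero_low (hPP a c) (phiL_low (φ := φ) (hp := hp) (hY c b)) k (by omega)
    rw [this]
    exact zero_mem _

/-- a product with a series of pole order at most `A` of a series divisible by `p ^ M` below `K` -/
theorem mul_low_pole {f g : LaurentSeries E} {A : ℤ} (hf : ∀ k < A, f.coeff k = 0)
    (hfi : f ∈ IL O) {M : ℕ} {K : ℤ} (hg : ∀ k < K, g.coeff k ∈ pI O p M) :
    ∀ k < K + A, (f * g).coeff k ∈ pI O p M := by
  intro k hk
  obtain ⟨b, hb⟩ := exists_bound g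
  rw [coeff_mul_Icc hf hb]
  refine sum_mem fun j hj => ?_
  have := Finset.mem_Icc.1 hj
  exact pI_mul_left (hfi j) (hg _ (by omega))

/-- Horizontality of `Φ_H` in the direction `δ`. -/
theorem d_place (δ : Derivation ℤ E E) (hδO : ∀ x ∈ O, δ x ∈ O)
    {G : Matrix (u ⊕ w) (u ⊕ w) (LaurentSeries E)} (hGi : MInt O G) {A : ℕ}
    (hGA : ∀ a b, ∀ k < -(A : ℤ), (G a b).coeff k = 0) {M : ℕ} {K : ℤ} (hK : (A : ℤ) < K)
    (T : Matrix (u ⊕ w) u (LaurentSeries E)) (B B' : Matrix u u E) (hB : ∀ a b, B' a b ∈ O)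
    (h : ∀ a b, ((T.map (cmap (δ : E →+ E)) + G * T - T * cM B') a b).coeff 0 ∈ pI O p M)
    {Y : Matrix (u ⊕ w) u (LaurentSeries E)} (hY0 : cz Y = fromRows 1 0)
    (hY : ∀ a b, ((Y.map (cmap (δ : E →+ E)) + G * Y - Y * cM B) a b).coeff 0 = 0)
    (PhiH : Matrix u u E)
    (hT : ∀ a b, ∀ k < K, ((T - Y * cM PhiH) a b).coeff k ∈ pI O p M) :
    ∀ a b, (PhiH.map δ + B * PhiH - PhiH * B') a b ∈ pI O p M := by
  intro a b
  set D : Matrix (u ⊕ w) u (LaurentSeries E) := T - Y * cM PhiH with hD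
  have hTD : T = D + Y * cM PhiH := by rw [hD, sub_add_cancel]
  have hK0 : (0 : ℤ) < K := by omega
  -- the difference
  have h1 : (T.map (cmap (δ : E →+ E)) + G * T - T * cM B') =
      (D.map (cmap (δ : E →+ E)) + G * D - D * cM B') +
      (Y.map (cmap (δ : E →+ E)) + G * Y - Y * cM B) * cM PhiH +
      Y * cM (PhiH.map δ + B * PhiH - PhiH * B') := by
    have e3 : cM (PhiH.map δ + B * PhiH - PhiH * B') =
        cM (PhiH.map δ) + cM B * cM PhiH - cM PhiH * cM B' := by
      ext1 a b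
      simp only [Matrix.map_apply, Matrix.sub_apply, Matrix.add_apply, Matrix.mul_apply, map_sub,
        map_add, map_sum, map_mul]
    have e1 : T.map (cmap (δ : E →+ E)) = D.map (cmap (δ : E →+ E)) +
        (Y * cM PhiH).map (cmap (δ : E →+ E)) := by
      rw [hTD]
      ext1 a b
      simp only [Matrix.map_apply, Matrix.add_apply, map_add]
    rw [e1, map_cmap_mul, e3, cM_map_cmap]
    conv_lhs => rw [hTD]
    simp only [Matrix.mul_add, Matrix.mul_sub, Matrix.sub_mul, Matrix.add_mul, Matrix.mul_assoc]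
    abel
  have h2 := h (Sum.inl a) b
  rw [h1, Matrix.add_apply, Matrix.add_apply, HahnSeries.coeff_add, HahnSeries.coeff_add] at h2
  have h3 : ((D.map (cmap (δ : E →+ E)) + G * D - D * cM B') (Sum.inl a) b).coeff 0 ∈
      pI O p M := by
    rw [Matrix.sub_apply, Matrix.add_apply, HahnSeries.coeff_sub, HahnSeries.coeff_add,
      coeff_mul_cM', Matrix.map_apply, cmap_coeff, Matrix.mul_apply, HahnSeries.coeff_sum]
    refine sub_mem (add_mem ?_ (sum_mem fun c _ => ?_)) (sum_mem fun c _ => ?_)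
    · obtain ⟨y, hy, e⟩ := hT (Sum.inl a) b 0 hK0
      refine ⟨δ y, hδO y hy, ?_⟩
      change δ ((D (Sum.inl a) b).coeff 0) = _
      rw [e, δ.leibniz]
      have : δ ((p : E) ^ M) = 0 := by
        rw [← Nat.cast_pow]
        exact δ.map_natCast _
      rw [this]
      simp
    · exact mul_low_pole (hGA _ c) (hGi _ c) (hT c b) 0 (by omega)
    · exact pI_mul_right (hT _ c 0 hK0) (hB c b)
  have h4 : (((Y.map (cmap (δ : E →+ E)) + G * Y - Y * cM B) * cM PhiH) (Sum.inl a) b).coeff 0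
      = 0 := by
    rw [coeff_mul_cM']
    refine Finset.sum_eq_zero fun c _ => ?_
    rw [hY, zero_mul]
  have h5 : ((Y * cM (PhiH.map δ + B * PhiH - PhiH * B')) (Sum.inl a) b).coeff 0 =
      (PhiH.map δ + B * PhiH - PhiH * B') a b := by
    rw [coeff_mul_cM']
    have hYc : ∀ c, (Y (Sum.inl a) c).coeff 0 = (1 : Matrix u u E) a c := by
      intro c
      exact congrFun (congrFun hY0 (Sum.inl a)) c
    simp only [hYc, Matrix.one_apply, ite_mul, one_mul, zero_mul]
    simp
  rw [h4, add_zero, h5] at h2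
  have := sub_mem h2 h3
  rwa [add_sub_cancel_left] at this

end dplace

end Pool.H80.Cube
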